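import Pool.Agent.U84.AWQ.Stm

/-! Project AWQ, package GLOB: the final alternatives on two complementary central projections. -/

set_option autoImplicit false

universe u

namespace Pool.Agent.U864.AWQ

open Pool.Agent.R456.CL Pool.Agent.U84.AWQ

variable {A : Type u} [CStarAlgebra A]

theorem CP_one : CP (1 : A) := ⟨IsStarProjection.one A, fun x => by rw [one_mul, mul_one]⟩

theorem CP_one_sub {z : A} (h : CP z) : CP (1 - z) :=
  ⟨h.1.one_sub, fun x => by rw [sub_mul, mul_sub, one_mul, mul_one, h.2 x]⟩

/-- a supremum of central projections is central -/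
theorem CP_sup {ι : Type u} {w : ι → A} {z : A} (hw : ∀ i, CP (w i)) (h : IsSup w z) : CP z := by
  have hz : star z = z := h.1.isSelfAdjoint
  have key : ∀ x : A, x * z = z * x * z := by
    intro x
    have h1 : ∀ i, ((1 - z) * x) * w i = 0 := by
      intro i
      have h2 : z * w i = w i := by rw [← (hw i).2 z, h.2.1 i]
      calc ((1 - z) * x) * w i = (1 - z) * (w i * x) := by rw [mul_assoc, (hw i).2 x]
        _ = (w i - z * w i) * x := by rw [← mul_assoc, sub_mul, one_mul]
        _ = 0 := by rw [h2, sub_self, zero_mul]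
    have h3 := h.2.2 _ h1
    rw [sub_mul, one_mul, sub_mul, sub_eq_zero] at h3
    exact h3
  refine ⟨h.1, fun x => ?_⟩
  have h4 := key (star x)
  have h5 := congrArg star h4
  simp only [star_mul, star_star, hz] at h5
  -- h5 : z * x = z * (x * z)
  exact h5.trans ((mul_assoc z x z).symm.trans (key x).symm)

theorem t_GLOB : S_GLOB.{u} := by
  intro A _ h1 hSup hZorn hDesc hGA hGB T
  obtain ⟨ι, w, hw, hΦ, hort, -, hsup⟩ := hZorn 1 CP_one (fun z => DA T z ∨ DB T z) (by
    intro z hz hz0 _
    exact hDesc h1 T z hz hz0)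
  obtain ⟨z, hz⟩ := hSup {i : ι // DA T (w i)} (fun i => w i.1) (fun i => (hw i.1).1)
  have hzc : CP z := CP_sup (fun i : {i : ι // DA T (w i)} => hw i.1) hz
  have hzc' : CP (1 - z) := CP_one_sub hzc
  refine ⟨z, hzc, ?_, ?_⟩
  · refine hGA T {i : ι // DA T (w i)} (fun i => w i.1) z (fun i => hw i.1) ?_ hzc hz
      (fun i => i.2)
    intro i j hij
    exact hort _ _ (fun h => hij (Subtype.ext h))
  · have hs : IsSup (fun i : {i : ι // ¬ DA T (w i)} => w i.1) (1 - z) := by
      refine ⟨hzc'.1, ?_, ?_⟩
      · intro i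
        have h2 : w i.1 * z = 0 := by
          refine hz.2.2 _ (fun j => ?_)
          refine hort _ _ (fun h => i.2 ?_)
          rw [h]
          exact j.2
        rw [mul_sub, mul_one, h2, sub_zero]
      · intro x hx
        have h3 := hsup.2.2 (x * (1 - z)) (by
          intro i
          by_cases hi : DA T (w i)
          · have h4 : w i * z = w i := hz.2.1 ⟨i, hi⟩
            rw [mul_assoc, hzc'.2 (w i), mul_sub, mul_one, h4, sub_self, mul_zero]
          · rw [mul_assoc, hzc'.2 (w i), ← mul_assoc, hx ⟨i, hi⟩, zero_mul])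
        rwa [mul_one] at h3
    refine hGB T {i : ι // ¬ DA T (w i)} (fun i => w i.1) (1 - z) (fun i => hw i.1) ?_ hzc' hs
      (fun i => (hΦ i.1).resolve_left i.2)
    intro i j hij
    exact hort _ _ (fun h => hij (Subtype.ext h))

end Pool.Agent.U864.AWQ
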